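import Pool.Agent.BOX.StmtsT

/-! BOX (MP_be01ff_an), row FMT: the trilinear convolution of class functions, `N = 2`. -/

namespace Pool.Agent.BOX.H98

open Set Filter Topology MeasureTheory Pool.Agent.BOX

noncomputable section

/-- `1` if `x = m`, `-1` if `x = -m` -/
def ta (x m : ℤ) : ℤ := if x = m then 1 else if x = -m then -1 else 0

/-- the active coordinate of the phase -/
def act (b : Bool) (p : ℤ × ℤ) : ℤ := if b then p.1 else p.2

/-- the other coordinate of the phase -/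
def oth (b : Bool) (p : ℤ × ℤ) : ℤ := if b then p.2 else p.1

/-- the factor of the second space coordinate -/
def sc (b : Bool) : ℤ := if b then 1 else 2

/-- the phase -/
def ph (b : Bool) (m : ℤ) : ℤ × ℤ := if b then (m, 0) else (0, m)

/-- class functions -/
def CL (b : Bool) (f : ℤ → ℂ) (g : G2) : ℂ :=
  if oth b g.1 = 0 ∧ Odd (act b g.1) then
    ((ta (g.2 0) (act b g.1) * ta (g.2 1) (sc b * act b g.1) : ℤ) : ℂ) * f (act b g.1) else 0

theorem sc_pos (b : Bool) : 0 < sc b := by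
  cases b <;> decide

theorem ta_self (m : ℤ) : ta m m = 1 := if_pos rfl

theorem ta_neg {m : ℤ} (hm : m ≠ 0) : ta (-m) m = -1 := by
  unfold ta
  rw [if_neg (by omega), if_pos rfl]

theorem ta_scale {c : ℤ} (hc : c ≠ 0) (x m : ℤ) : ta (c * x) (c * m) = ta x m := by
  unfold ta
  have h1 : c * x = c * m ↔ x = m := mul_right_inj' hc
  have h2 : c * x = -(c * m) ↔ x = -m := by
    rw [← mul_neg]
    exact mul_right_inj' hc
  by_cases h : x = m
  · rw [if_pos h, if_pos (h1.2 h)]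
  · rw [if_neg h, if_neg (fun e => h (h1.1 e))]
    by_cases h' : x = -m
    · rw [if_pos h', if_pos (h2.2 h')]
    · rw [if_neg h', if_neg (fun e => h' (h2.1 e))]

theorem ta_ne {x m : ℤ} (h : ta x m ≠ 0) : x = m ∨ x = -m := by
  unfold ta at h
  by_contra h'
  push Not at h'
  rw [if_neg h'.1, if_neg h'.2] at h
  exact h rfl

theorem cl_aux (m x y s : ℤ) (hs : 0 < s) (hm : m ≠ 0) :
    (if |x| = |m| ∧ |y| = s * |m| then Int.sign (x * y) else 0) = ta x m * ta y (s * m) := by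
  have hx : |x| = |m| ↔ x = m ∨ x = -m := abs_eq_abs
  have hy : |y| = s * |m| ↔ y = s * m ∨ y = -(s * m) := by
    have h1 : s * |m| = |s * m| := by rw [abs_mul, abs_of_pos hs]
    rw [h1]
    exact abs_eq_abs
  have hsm : s * m ≠ 0 := mul_ne_zero hs.ne' hm
  have hp : 0 < m * (s * m) := by
    have h1 : 0 < m * m := mul_self_pos.2 hm
    have h2 : m * (s * m) = s * (m * m) := by ring
    rw [h2]
    exact mul_pos hs h1
  have hne : ¬ (s * m = -(s * m)) := by omega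
  have hne' : ¬ (-m = m) := by omega
  by_cases h : |x| = |m| ∧ |y| = s * |m|
  · rw [if_pos h]
    rcases hx.1 h.1 with rfl | rfl
    · rcases hy.1 h.2 with rfl | rfl
      · rw [ta_self, ta_self, Int.sign_eq_one_of_pos hp]
        rfl
      · rw [ta_self, ta_neg hsm, mul_neg, Int.sign_neg, Int.sign_eq_one_of_pos hp]
        rfl
    · rcases hy.1 h.2 with rfl | rfl
      · rw [ta_self, ta_neg hm, neg_mul, Int.sign_neg, Int.sign_eq_one_of_pos hp]
        rfl
      · rw [ta_neg hm, ta_neg hsm, neg_mul_neg, Int.sign_eq_one_of_pos hp]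
        rfl
  · rw [if_neg h]
    symm
    by_contra h'
    rcases mul_ne_zero_iff.1 h' with ⟨h1, h2⟩
    exact h ⟨hx.2 (ta_ne h1), hy.2 (ta_ne h2)⟩

theorem odd_ne {m : ℤ} (h : Odd m) : m ≠ 0 := by
  rintro rfl
  exact absurd h (by decide)

theorem CL_true (f : ℤ → ℂ) (g : G2) : CL true f g =
    if g.1.2 = 0 ∧ Odd g.1.1 ∧ |g.2 0| = |g.1.1| ∧ |g.2 1| = |g.1.1| then
    ((Int.sign (g.2 0 * g.2 1) : ℤ) : ℂ) * f g.1.1 else 0 := by
  change (if g.1.2 = 0 ∧ Odd g.1.1 then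
    ((ta (g.2 0) g.1.1 * ta (g.2 1) (1 * g.1.1) : ℤ) : ℂ) * f g.1.1 else 0) = _
  by_cases h : g.1.2 = 0 ∧ Odd g.1.1
  · rw [if_pos h, ← cl_aux g.1.1 (g.2 0) (g.2 1) 1 one_pos (odd_ne h.2), one_mul]
    by_cases h' : |g.2 0| = |g.1.1| ∧ |g.2 1| = |g.1.1|
    · rw [if_pos h', if_pos ⟨h.1, h.2, h'⟩]
    · rw [if_neg h', if_neg (fun e => h' e.2.2), Int.cast_zero, zero_mul]
  · rw [if_neg h, if_neg (fun e => h ⟨e.1, e.2.1⟩)]

theorem CL_false (f : ℤ → ℂ) (g : G2) : CL false f g =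
    if g.1.1 = 0 ∧ Odd g.1.2 ∧ |g.2 0| = |g.1.2| ∧ |g.2 1| = 2 * |g.1.2| then
    ((Int.sign (g.2 0 * g.2 1) : ℤ) : ℂ) * f g.1.2 else 0 := by
  change (if g.1.1 = 0 ∧ Odd g.1.2 then
    ((ta (g.2 0) g.1.2 * ta (g.2 1) (2 * g.1.2) : ℤ) : ℂ) * f g.1.2 else 0) = _
  by_cases h : g.1.1 = 0 ∧ Odd g.1.2
  · rw [if_pos h, ← cl_aux g.1.2 (g.2 0) (g.2 1) 2 two_pos (odd_ne h.2)]
    by_cases h' : |g.2 0| = |g.1.2| ∧ |g.2 1| = 2 * |g.1.2|
    · rw [if_pos h', if_pos ⟨h.1, h.2, h'⟩]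
    · rw [if_neg h', if_neg (fun e => h' e.2.2), Int.cast_zero, zero_mul]
  · rw [if_neg h, if_neg (fun e => h ⟨e.1, e.2.1⟩)]

theorem cl2_eq (f1 f2 : ℤ → ℂ) : cl2 f1 f2 = fun g => CL true f1 g + CL false f2 g := by
  funext g
  rw [CL_true, CL_false]
  rfl

/-- odd integers -/
abbrev OO := {m : ℤ // Odd m}

/-- pairs of signs -/
abbrev SS := ℤˣ × ℤˣ

/-- the points of a class -/
def pt (b : Bool) (z : OO × SS) : G2 :=
  (ph b z.1, ![(z.2.1 : ℤ) * z.1, (z.2.2 : ℤ) * (sc b * z.1)])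

theorem act_ph (b : Bool) (m : ℤ) : act b (ph b m) = m := by
  cases b <;> rfl

theorem oth_ph (b : Bool) (m : ℤ) : oth b (ph b m) = 0 := by
  cases b <;> rfl

theorem ph_eq {b : Bool} {p : ℤ × ℤ} (h : oth b p = 0) : p = ph b (act b p) := by
  cases b
  · exact Prod.ext h rfl
  · exact Prod.ext rfl h

theorem pt_inj (b : Bool) : Function.Injective (pt b) := by
  rintro ⟨m, e⟩ ⟨m', e'⟩ h
  have h1 : (m : ℤ) = m' := by
    have := congrArg (fun g : G2 => act b g.1) h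
    change act b (ph b m) = act b (ph b m') at this
    rwa [act_ph, act_ph] at this
  have h2 : m = m' := Subtype.ext h1
  subst h2
  have hm : (m : ℤ) ≠ 0 := odd_ne m.2
  have h3 : (e.1 : ℤ) * m = (e'.1 : ℤ) * m := congrArg (fun g : G2 => g.2 0) h
  have h4 : (e.2 : ℤ) * (sc b * m) = (e'.2 : ℤ) * (sc b * m) := congrArg (fun g : G2 => g.2 1) h
  have h5 := mul_right_cancel₀ hm h3
  have h6 := mul_right_cancel₀ (mul_ne_zero (sc_pos b).ne' hm) h4
  exact Prod.ext rfl (Prod.ext (Units.ext h5) (Units.ext h6))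

theorem ta_unit (e : ℤˣ) {m : ℤ} (hm : m ≠ 0) : ta ((e : ℤ) * m) m = e := by
  rcases Int.units_eq_one_or e with rfl | rfl
  · rw [Units.val_one, one_mul, ta_self]
  · rw [Units.val_neg, Units.val_one, neg_one_mul, ta_neg hm]

theorem CL_pt (b : Bool) (f : ℤ → ℂ) (z : OO × SS) :
    CL b f (pt b z) = (((z.2.1 : ℤ) * (z.2.2 : ℤ) : ℤ) : ℂ) * f z.1 := by
  unfold CL
  have h1 : act b (pt b z).1 = z.1 := act_ph b z.1
  have h2 : oth b (pt b z).1 = 0 := oth_ph b z.1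
  rw [h1, if_pos ⟨h2, z.1.2⟩]
  have hm : (z.1 : ℤ) ≠ 0 := odd_ne z.1.2
  have h3 : (pt b z).2 0 = (z.2.1 : ℤ) * z.1 := rfl
  have h4 : (pt b z).2 1 = (z.2.2 : ℤ) * (sc b * z.1) := rfl
  rw [h3, h4, ta_unit _ hm, ta_unit _ (mul_ne_zero (sc_pos b).ne' hm)]

theorem CL_supp (b : Bool) (f : ℤ → ℂ) : Function.support (CL b f) ⊆ range (pt b) := by
  intro g hg
  rw [Function.mem_support] at hg
  unfold CL at hg
  by_cases h : oth b g.1 = 0 ∧ Odd (act b g.1)
  · rw [if_pos h] at hg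
    have h1 := left_ne_zero_of_mul hg
    rw [Ne, Int.cast_eq_zero] at h1
    obtain ⟨h2, h3⟩ := mul_ne_zero_iff.1 h1
    have hunit : ∀ x m : ℤ, x = m ∨ x = -m → ∃ e : ℤˣ, x = (e : ℤ) * m := by
      intro x m h
      rcases h with h | h
      · exact ⟨1, by rw [h, Units.val_one, one_mul]⟩
      · exact ⟨-1, by rw [h, Units.val_neg, Units.val_one, neg_one_mul]⟩
    obtain ⟨e1, he1⟩ := hunit _ _ (ta_ne h2)
    obtain ⟨e2, he2⟩ := hunit _ _ (ta_ne h3)
    refine ⟨(⟨act b g.1, h.2⟩, (e1, e2)), ?_⟩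
    refine Prod.ext (ph_eq h.1).symm ?_
    funext i
    fin_cases i
    · exact he1.symm
    · exact he2.symm
  · rw [if_neg h] at hg
    exact absurd rfl hg

theorem CL_summable (b : Bool) (f : ℤ → ℂ) (hf : Summable fun n => ‖f n‖) :
    Summable fun g => ‖CL b f g‖ := by
  have h0 : ∀ g ∉ range (pt b), ‖CL b f g‖ = 0 := by
    intro g hg
    rw [norm_eq_zero]
    by_contra h
    exact hg (CL_supp b f h)
  rw [← (pt_inj b).summable_iff h0]
  have h1 : Summable fun z : OO × SS => ‖f z.1‖ * 1 := by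
    refine Summable.mul_of_nonneg (f := fun m : OO => ‖f m‖) (g := fun _ : SS => (1 : ℝ)) ?_ ?_ ?_ ?_
    · exact hf.comp_injective Subtype.val_injective
    · exact (hasSum_fintype _).summable
    · intro m
      exact norm_nonneg _
    · intro m
      exact zero_le_one
  refine h1.congr fun z => ?_
  change _ = ‖CL b f (pt b z)‖
  rw [CL_pt, norm_mul, mul_one]
  have h2 : ‖(((z.2.1 : ℤ) * (z.2.2 : ℤ) : ℤ) : ℂ)‖ = 1 := by
    rcases Int.units_eq_one_or z.2.1 with h | h <;> rcases Int.units_eq_one_or z.2.2 with h' | h' <;>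
      rw [h, h'] <;> norm_num
  rw [h2, one_mul]

/-- summability of the trilinear family -/
theorem sumT (T3A : T3aStmt) {Γ : Type} [AddCommGroup Γ] {F G H : Γ → ℂ}
    (hF : Summable fun g => ‖F g‖) (hG : Summable fun g => ‖G g‖) (hH : Summable fun g => ‖H g‖)
    (x : Γ) : Summable fun h : Γ × Γ => F h.1 * G h.2 * H (x - h.1 - h.2) := by
  have hw : Wt (fun _ : Γ => (1 : ℝ)) := ⟨fun _ => le_refl _, fun _ _ => by norm_num⟩
  have hs : ∀ F : Γ → ℂ, (Summable fun g => ‖F g‖) → Sm (fun _ : Γ => (1 : ℝ)) F := by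
    intro F hF
    unfold Sm
    exact hF.congr fun g => (mul_one _).symm
  have h := (T3A Γ ℂ (fun _ => 1) F G H hw (hs F hF) (hs G hG) (hs H hH)).1 x
  refine Summable.of_norm (h.congr fun y => ?_)
  rw [norm_mul, norm_mul]

theorem reindex {O S G : Type} [Fintype S] (u v : O × S → G) (hu : Function.Injective u)
    (hv : Function.Injective v) (Φ : G × G → ℂ) (hΦ : Summable Φ)
    (hsupp : Function.support Φ ⊆ range (Prod.map u v)) :
    ∑' y, Φ y = ∑' m : O × O, ∑ s : S × S, Φ (u (m.1, s.1), v (m.2, s.2)) := by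
  have hinj : Function.Injective (Prod.map u v) := hu.prodMap hv
  have h1 : Summable fun y : (O × S) × (O × S) => Φ (u y.1, v y.2) := hΦ.comp_injective hinj
  have hs2 : Summable fun w : (O × O) × (S × S) => Φ (u (w.1.1, w.2.1), v (w.1.2, w.2.2)) :=
    h1.comp_injective (Equiv.prodProdProdComm O O S S).injective
  have e1 : ∑' y, Φ y = ∑' y : (O × S) × (O × S), Φ (u y.1, v y.2) := (hinj.tsum_eq hsupp).symm
  have e2 : ∑' y : (O × S) × (O × S), Φ (u y.1, v y.2) =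
      ∑' w : (O × O) × (S × S), Φ (u (w.1.1, w.2.1), v (w.1.2, w.2.2)) :=
    ((Equiv.prodProdProdComm O O S S).tsum_eq
      (fun y : (O × S) × (O × S) => Φ (u y.1, v y.2))).symm
  rw [e1, e2, hs2.tsum_prod]
  refine tsum_congr fun m => ?_
  rw [tsum_fintype]

theorem T3_reindex (T3A : T3aStmt) (b b' : Bool) (f g : ℤ → ℂ) (H : G2 → ℂ)
    (hf : Summable fun n => ‖f n‖) (hg : Summable fun n => ‖g n‖) (hH : Summable fun y => ‖H y‖)
    (x : G2) : T3 (CL b f) (CL b' g) H x = ∑' m : OO × OO, ∑ s : SS × SS,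
      CL b f (pt b (m.1, s.1)) * CL b' g (pt b' (m.2, s.2)) *
        H (x - pt b (m.1, s.1) - pt b' (m.2, s.2)) := by
  have hsum := sumT T3A (CL_summable b f hf) (CL_summable b' g hg) hH x
  have hsupp : Function.support (fun h : G2 × G2 => CL b f h.1 * CL b' g h.2 * H (x - h.1 - h.2)) ⊆
      range (Prod.map (pt b) (pt b')) := by
    rintro ⟨y, z⟩ h
    rw [Function.mem_support] at h
    have h1 := left_ne_zero_of_mul h
    obtain ⟨y', rfl⟩ := CL_supp b f (left_ne_zero_of_mul h1)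
    obtain ⟨z', rfl⟩ := CL_supp b' g (right_ne_zero_of_mul h1)
    exact ⟨(y', z'), rfl⟩
  unfold T3
  exact reindex (pt b) (pt b') (pt_inj b) (pt_inj b') _ hsum hsupp

theorem sum_units (F : ℤˣ → ℂ) : ∑ e, F e = F 1 + F (-1) := by
  have h : (Finset.univ : Finset ℤˣ) = {1, -1} := by decide
  rw [h, Finset.sum_pair (by decide)]

/-- the sum over the signs factorizes -/
theorem sum_signs (U V : ℤˣ → ℤˣ → ℤ) (c : ℂ) :
    ∑ s : SS × SS, (((s.1.1 : ℤ) * (s.1.2 : ℤ) : ℤ) : ℂ) * (((s.2.1 : ℤ) * (s.2.2 : ℤ) : ℤ) : ℂ) *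
      (((U s.1.1 s.2.1 * V s.1.2 s.2.2 : ℤ) : ℂ) * c) =
    ((U 1 1 - U 1 (-1) - U (-1) 1 + U (-1) (-1) : ℤ) : ℂ) *
      ((V 1 1 - V 1 (-1) - V (-1) 1 + V (-1) (-1) : ℤ) : ℂ) * c := by
  simp only [Fintype.sum_prod_type, sum_units, Units.val_one, Units.val_neg]
  push_cast
  ring

theorem ph_sub3 (b : Bool) (n m m' : ℤ) : ph b n - ph b m - ph b m' = ph b (n - m - m') := by
  cases b
  · exact Prod.ext (by simp [ph]) rfl
  · exact Prod.ext rfl (by simp [ph])

/-- `1` if the proposition holds -/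
def on (P : Prop) [Decidable P] : ℤ := if P then 1 else 0

theorem om_same {m1 m2 n : ℤ} (h1 : Odd m1) (h2 : Odd m2) (hn : Odd n) :
    ta (n - m1 - m2) (n - m1 - m2) - ta (n - m1 + m2) (n - m1 - m2) -
      ta (n + m1 - m2) (n - m1 - m2) + ta (n + m1 + m2) (n - m1 - m2) =
    1 + on (m1 + m2 = 0) + on (m2 = n) + on (m1 = n) := by
  have h1' := odd_ne h1
  have h2' := odd_ne h2
  have hn' := odd_ne hn
  obtain ⟨a, rfl⟩ := h1
  obtain ⟨b, rfl⟩ := h2
  obtain ⟨c, rfl⟩ := hn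
  unfold ta on
  split_ifs <;> omega

theorem om_diff {q n : ℤ} (h1 : Odd q) (hn : Odd n) :
    ta (n - n - q) (-q) - ta (n - n + q) (-q) - ta (n + n - q) (-q) + ta (n + n + q) (-q) =
    2 + on (q = n) + on (q = -n) := by
  obtain ⟨a, rfl⟩ := h1
  obtain ⟨c, rfl⟩ := hn
  unfold ta on
  split_ifs <;> omega

theorem om_diff2 (b : Bool) {q n : ℤ} (h1 : Odd q) (hn : Odd n) :
    ta (sc b * n - sc b * n - sc (!b) * q) (sc (!b) * -q) -
      ta (sc b * n - sc b * n + sc (!b) * q) (sc (!b) * -q) -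
      ta (sc b * n + sc b * n - sc (!b) * q) (sc (!b) * -q) +
      ta (sc b * n + sc b * n + sc (!b) * q) (sc (!b) * -q) = 2 := by
  obtain ⟨a, rfl⟩ := h1
  obtain ⟨c, rfl⟩ := hn
  cases b
  · change ta (2 * _ - 2 * _ - 1 * _) (1 * _) - ta (2 * _ - 2 * _ + 1 * _) (1 * _) -
      ta (2 * _ + 2 * _ - 1 * _) (1 * _) + ta (2 * _ + 2 * _ + 1 * _) (1 * _) = 2
    unfold ta
    split_ifs <;> omega
  · change ta (1 * _ - 1 * _ - 2 * _) (2 * _) - ta (1 * _ - 1 * _ + 2 * _) (2 * _) -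
      ta (1 * _ + 1 * _ - 2 * _) (2 * _) + ta (1 * _ + 1 * _ + 2 * _) (2 * _) = 2
    unfold ta
    split_ifs <;> omega

theorem CL_same (b : Bool) (h : ℤ → ℂ) {m : ℤ} (hm : Odd m) (k : Fin 2 → ℤ) :
    CL b h (ph b m, k) = ((ta (k 0) m * ta (k 1) (sc b * m) : ℤ) : ℂ) * h m := by
  unfold CL
  have h1 : act b (ph b m, k).1 = m := act_ph b m
  have h2 : oth b (ph b m, k).1 = 0 := oth_ph b m
  rw [h1, if_pos ⟨h2, hm⟩]

theorem inner_same (b : Bool) (f g h : ℤ → ℂ) {n : ℤ} (hn : Odd n) (m : OO × OO) :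
    ∑ s : SS × SS, CL b f (pt b (m.1, s.1)) * CL b g (pt b (m.2, s.2)) *
        CL b h ((ph b n, ![n, sc b * n]) - pt b (m.1, s.1) - pt b (m.2, s.2)) =
      f m.1 * g m.2 * h (n - m.1 - m.2) *
        (((1 + on ((m.1 : ℤ) + m.2 = 0) + on ((m.2 : ℤ) = n) + on ((m.1 : ℤ) = n)) ^ 2 : ℤ) : ℂ) := by
  obtain ⟨⟨m1, h1⟩, ⟨m2, h2⟩⟩ := m
  have h3 : Odd (n - m1 - m2) := by
    rcases hn with ⟨a, rfl⟩
    rcases h1 with ⟨c, rfl⟩
    rcases h2 with ⟨d, rfl⟩
    exact ⟨a - c - d - 1, by ring⟩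
  have key : ∀ s : SS × SS, CL b f (pt b (⟨m1, h1⟩, s.1)) * CL b g (pt b (⟨m2, h2⟩, s.2)) *
        CL b h ((ph b n, ![n, sc b * n]) - pt b (⟨m1, h1⟩, s.1) - pt b (⟨m2, h2⟩, s.2)) =
      (((s.1.1 : ℤ) * (s.1.2 : ℤ) : ℤ) : ℂ) * (((s.2.1 : ℤ) * (s.2.2 : ℤ) : ℤ) : ℂ) *
        (((ta (n - (s.1.1 : ℤ) * m1 - (s.2.1 : ℤ) * m2) (n - m1 - m2) *
          ta (n - (s.1.2 : ℤ) * m1 - (s.2.2 : ℤ) * m2) (n - m1 - m2) : ℤ) : ℂ) *
          (f m1 * g m2 * h (n - m1 - m2))) := by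
    intro s
    have e1 : (ph b n, ![n, sc b * n]) - pt b (⟨m1, h1⟩, s.1) - pt b (⟨m2, h2⟩, s.2) =
        (ph b (n - m1 - m2), ![n, sc b * n] - ![(s.1.1 : ℤ) * m1, (s.1.2 : ℤ) * (sc b * m1)] -
          ![(s.2.1 : ℤ) * m2, (s.2.2 : ℤ) * (sc b * m2)]) :=
      Prod.ext (ph_sub3 b n m1 m2) rfl
    rw [e1, CL_same b h h3, CL_pt, CL_pt]
    have e2 : (![n, sc b * n] - ![(s.1.1 : ℤ) * m1, (s.1.2 : ℤ) * (sc b * m1)] -
          ![(s.2.1 : ℤ) * m2, (s.2.2 : ℤ) * (sc b * m2)]) 0 =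
          n - (s.1.1 : ℤ) * m1 - (s.2.1 : ℤ) * m2 := rfl
    have e3 : (![n, sc b * n] - ![(s.1.1 : ℤ) * m1, (s.1.2 : ℤ) * (sc b * m1)] -
          ![(s.2.1 : ℤ) * m2, (s.2.2 : ℤ) * (sc b * m2)]) 1 =
          sc b * (n - (s.1.2 : ℤ) * m1 - (s.2.2 : ℤ) * m2) := by
      change sc b * n - (s.1.2 : ℤ) * (sc b * m1) - (s.2.2 : ℤ) * (sc b * m2) = _
      ring
    rw [e2, e3, ta_scale (sc_pos b).ne']
    ring
  rw [Finset.sum_congr rfl fun s _ => key s]
  rw [sum_signs (fun e e' => ta (n - (e : ℤ) * m1 - (e' : ℤ) * m2) (n - m1 - m2))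
    (fun e e' => ta (n - (e : ℤ) * m1 - (e' : ℤ) * m2) (n - m1 - m2))]
  have h4 := om_same h1 h2 hn
  simp only [Units.val_one, Units.val_neg, one_mul, neg_mul, sub_neg_eq_add]
  rw [h4]
  push_cast
  ring

theorem inner_diff (b : Bool) (f g h : ℤ → ℂ) {n : ℤ} (hn : Odd n) (m : OO × OO) :
    ∑ s : SS × SS, CL b f (pt b (m.1, s.1)) * CL (!b) g (pt (!b) (m.2, s.2)) *
        CL (!b) h ((ph b n, ![n, sc b * n]) - pt b (m.1, s.1) - pt (!b) (m.2, s.2)) =
      if (m.1 : ℤ) = n then f n * g m.2 * h (-m.2) *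
        (((2 + on ((m.2 : ℤ) = n) + on ((m.2 : ℤ) = -n)) * 2 : ℤ) : ℂ) else 0 := by
  obtain ⟨⟨m1, h1⟩, ⟨m2, h2⟩⟩ := m
  have hoth : oth (!b) (ph b n - ph b m1 - ph (!b) m2) = n - m1 := by
    cases b
    · change n - m1 - 0 = n - m1
      ring
    · change n - m1 - 0 = n - m1
      ring
  have hact : act (!b) (ph b n - ph b m1 - ph (!b) m2) = -m2 := by
    cases b
    · change 0 - 0 - m2 = -m2
      ring
    · change 0 - 0 - m2 = -m2
      ring
  have e0 : ∀ s : SS × SS, ((ph b n, ![n, sc b * n]) : G2) - pt b (⟨m1, h1⟩, s.1) -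
      pt (!b) (⟨m2, h2⟩, s.2) =
        (ph b n - ph b m1 - ph (!b) m2, ![n, sc b * n] -
          ![(s.1.1 : ℤ) * m1, (s.1.2 : ℤ) * (sc b * m1)] -
          ![(s.2.1 : ℤ) * m2, (s.2.2 : ℤ) * (sc (!b) * m2)]) := fun s => rfl
  change _ = if m1 = n then _ else _
  by_cases hmn : m1 = n
  · rw [if_pos hmn]
    subst hmn
    have key : ∀ s : SS × SS, CL b f (pt b (⟨m1, h1⟩, s.1)) * CL (!b) g (pt (!b) (⟨m2, h2⟩, s.2)) *
        CL (!b) h ((ph b m1, ![m1, sc b * m1]) - pt b (⟨m1, h1⟩, s.1) -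
          pt (!b) (⟨m2, h2⟩, s.2)) =
      (((s.1.1 : ℤ) * (s.1.2 : ℤ) : ℤ) : ℂ) * (((s.2.1 : ℤ) * (s.2.2 : ℤ) : ℤ) : ℂ) *
        (((ta (m1 - (s.1.1 : ℤ) * m1 - (s.2.1 : ℤ) * m2) (-m2) *
          ta (sc b * m1 - (s.1.2 : ℤ) * (sc b * m1) - (s.2.2 : ℤ) * (sc (!b) * m2))
            (sc (!b) * -m2) : ℤ) : ℂ) * (f m1 * g m2 * h (-m2))) := by
      intro s
      have e4 : CL (!b) h ((ph b m1, ![m1, sc b * m1]) - pt b (⟨m1, h1⟩, s.1) -
          pt (!b) (⟨m2, h2⟩, s.2)) = ((ta (m1 - (s.1.1 : ℤ) * m1 - (s.2.1 : ℤ) * m2) (-m2) *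
          ta (sc b * m1 - (s.1.2 : ℤ) * (sc b * m1) - (s.2.2 : ℤ) * (sc (!b) * m2))
            (sc (!b) * -m2) : ℤ) : ℂ) * h (-m2) := by
        rw [e0]
        unfold CL
        have e5 : oth (!b) (ph b m1 - ph b m1 - ph (!b) m2, ![m1, sc b * m1] -
          ![(s.1.1 : ℤ) * m1, (s.1.2 : ℤ) * (sc b * m1)] -
          ![(s.2.1 : ℤ) * m2, (s.2.2 : ℤ) * (sc (!b) * m2)]).1 = 0 := by
          rw [hoth, sub_self]
        have e6 : act (!b) (ph b m1 - ph b m1 - ph (!b) m2, ![m1, sc b * m1] -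
          ![(s.1.1 : ℤ) * m1, (s.1.2 : ℤ) * (sc b * m1)] -
          ![(s.2.1 : ℤ) * m2, (s.2.2 : ℤ) * (sc (!b) * m2)]).1 = -m2 := hact
        rw [e6, if_pos ⟨e5, h2.neg⟩]
        rfl
      rw [e4, CL_pt, CL_pt]
      ring
    rw [Finset.sum_congr rfl fun s _ => key s]
    rw [sum_signs (fun e e' => ta (m1 - (e : ℤ) * m1 - (e' : ℤ) * m2) (-m2))
      (fun e e' => ta (sc b * m1 - (e : ℤ) * (sc b * m1) - (e' : ℤ) * (sc (!b) * m2))
            (sc (!b) * -m2))]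
    have h4 := om_diff h2 hn
    have h5 := om_diff2 b h2 hn
    simp only [Units.val_one, Units.val_neg, one_mul, neg_mul, sub_neg_eq_add]
    rw [h4, h5]
    push_cast
    ring
  · rw [if_neg hmn]
    refine Finset.sum_eq_zero fun s _ => ?_
    have e4 : CL (!b) h ((ph b n, ![n, sc b * n]) - pt b (⟨m1, h1⟩, s.1) -
          pt (!b) (⟨m2, h2⟩, s.2)) = 0 := by
      rw [e0]
      unfold CL
      rw [if_neg]
      rintro ⟨h5, -⟩
      have h6 : n - m1 = 0 := by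
        rw [← hoth]
        exact h5
      exact hmn (by omega)
    rw [e4, mul_zero]

/-- from odd integers to all integers -/
theorem tsum_odd (Φ : ℤ × ℤ → ℂ) (h : ∀ m, Φ m ≠ 0 → Odd m.1 ∧ Odd m.2) :
    ∑' m : OO × OO, Φ ((m.1 : ℤ), (m.2 : ℤ)) = ∑' m, Φ m := by
  have hinj : Function.Injective (fun m : OO × OO => ((m.1 : ℤ), (m.2 : ℤ))) := by
    rintro ⟨a, b⟩ ⟨c, d⟩ h
    exact Prod.ext (Subtype.ext (congrArg Prod.fst h)) (Subtype.ext (congrArg Prod.snd h))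
  refine hinj.tsum_eq (f := Φ) ?_
  intro m hm
  obtain ⟨h1, h2⟩ := h m hm
  exact ⟨(⟨m.1, h1⟩, ⟨m.2, h2⟩), rfl⟩

theorem line {Ψ : ℤ × ℤ → ℂ} (hΨ : Summable Ψ) (i : ℤ → ℤ × ℤ) (hi : Function.Injective i)
    (P : ℤ × ℤ → Prop) [DecidablePred P] (hP : ∀ m, P m ↔ m ∈ range i) (c : ℂ)
    (hc : ∑' q, Ψ (i q) = c) : HasSum (fun m => Ψ m * ((on (P m) : ℤ) : ℂ)) c := by
  have h1 : HasSum (fun q => Ψ (i q)) c := by
    rw [← hc]
    exact (hΨ.comp_injective hi).hasSum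
  refine (hi.hasSum_iff ?_).1 ?_
  · intro m hm
    have h2 : ¬ P m := fun h => hm ((hP m).1 h)
    unfold on
    rw [if_neg h2, Int.cast_zero, mul_zero]
  · have e : (fun q => Ψ (i q)) = (fun m => Ψ m * ((on (P m) : ℤ) : ℂ)) ∘ i := by
      funext q
      have h2 : P (i q) := (hP _).2 ⟨q, rfl⟩
      change Ψ (i q) = Ψ (i q) * ((on (P (i q)) : ℤ) : ℂ)
      unfold on
      rw [if_pos h2, Int.cast_one, mul_one]
    rwa [e] at h1

theorem point (Ψ : ℤ × ℤ → ℂ) (m0 : ℤ × ℤ) (P : ℤ × ℤ → Prop) [DecidablePred P]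
    (hP : ∀ m, P m ↔ m = m0) : HasSum (fun m => Ψ m * ((on (P m) : ℤ) : ℂ)) (Ψ m0) := by
  have h1 := hasSum_single (f := fun m => Ψ m * ((on (P m) : ℤ) : ℂ)) m0 (by
    intro m hm
    have h2 : ¬ P m := fun h => hm ((hP m).1 h)
    change Ψ m * ((on (P m) : ℤ) : ℂ) = 0
    unfold on
    rw [if_neg h2, Int.cast_zero, mul_zero])
  have h3 : Ψ m0 * ((on (P m0) : ℤ) : ℂ) = Ψ m0 := by
    have h2 : P m0 := (hP _).2 rfl
    unfold on
    rw [if_pos h2, Int.cast_one, mul_one]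
  rwa [h3] at h1

theorem om_sq (P Q R : Prop) [Decidable P] [Decidable Q] [Decidable R] :
    (1 + on P + on Q + on R) ^ 2 = 1 + 3 * (on P + on Q + on R) +
      2 * (on (P ∧ Q) + on (Q ∧ R) + on (P ∧ R)) := by
  by_cases hP : P <;> by_cases hQ : Q <;> by_cases hR : R <;> simp [on, hP, hQ, hR]

theorem T3_same (T3A : T3aStmt) (b : Bool) (f g h : ℤ → ℂ) (of : Oddf f) (og : Oddf g)
    (hf : Summable fun n => ‖f n‖) (hg : Summable fun n => ‖g n‖) (hh : Summable fun n => ‖h n‖)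
    {n : ℤ} (hn : Odd n) :
    T3 (CL b f) (CL b g) (CL b h) (ph b n, ![n, sc b * n]) = K1 3 2 f g h n := by
  rw [T3_reindex T3A b b f g (CL b h) hf hg (CL_summable b h hh)]
  rw [tsum_congr fun m => inner_same b f g h hn m]
  let Ψ : ℤ × ℤ → ℂ := fun m => f m.1 * g m.2 * h (n - m.1 - m.2)
  have hΨ : Summable Ψ := sumT T3A hf hg hh n
  have e1 := tsum_odd (fun m : ℤ × ℤ => Ψ m *
    (((1 + on (m.1 + m.2 = 0) + on (m.2 = n) + on (m.1 = n)) ^ 2 : ℤ) : ℂ)) (by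
      intro m hm
      have h1 : f m.1 * g m.2 ≠ 0 := left_ne_zero_of_mul (left_ne_zero_of_mul hm)
      constructor
      · by_contra h2
        exact left_ne_zero_of_mul h1 (of _ h2)
      · by_contra h2
        exact right_ne_zero_of_mul h1 (og _ h2))
  refine e1.trans ?_
  have HA : HasSum (fun m => Ψ m * ((on (m.1 + m.2 = 0) : ℤ) : ℂ)) (h n * pr f g) := by
    refine line hΨ (fun q => (q, -q)) ?_ (fun m => m.1 + m.2 = 0) ?_ _ ?_
    · intro q q' e
      exact congrArg Prod.fst e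
    · intro m
      constructor
      · intro e
        exact ⟨m.1, Prod.ext rfl (by change -m.1 = m.2; omega)⟩
      · rintro ⟨q, rfl⟩
        change q + -q = 0
        omega
    · unfold pr
      rw [← tsum_mul_left]
      refine tsum_congr fun q => ?_
      change f q * g (-q) * h (n - q - -q) = h n * (f q * g (-q))
      have e2 : n - q - -q = n := by ring
      rw [e2]
      ring
  have HB : HasSum (fun m => Ψ m * ((on (m.2 = n) : ℤ) : ℂ)) (g n * pr f h) := by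
    refine line hΨ (fun q => (q, n)) ?_ (fun m => m.2 = n) ?_ _ ?_
    · intro q q' e
      exact congrArg Prod.fst e
    · intro m
      constructor
      · intro e
        exact ⟨m.1, Prod.ext rfl e.symm⟩
      · rintro ⟨q, rfl⟩
        rfl
    · unfold pr
      rw [← tsum_mul_left]
      refine tsum_congr fun q => ?_
      change f q * g n * h (n - q - n) = g n * (f q * h (-q))
      have e2 : n - q - n = -q := by ring
      rw [e2]
      ring
  have HC : HasSum (fun m => Ψ m * ((on (m.1 = n) : ℤ) : ℂ)) (f n * pr g h) := by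
    refine line hΨ (fun q => (n, q)) ?_ (fun m => m.1 = n) ?_ _ ?_
    · intro q q' e
      exact congrArg Prod.snd e
    · intro m
      constructor
      · intro e
        exact ⟨m.2, Prod.ext e.symm rfl⟩
      · rintro ⟨q, rfl⟩
        rfl
    · unfold pr
      rw [← tsum_mul_left]
      refine tsum_congr fun q => ?_
      change f n * g q * h (n - n - q) = f n * (g q * h (-q))
      have e2 : n - n - q = -q := by ring
      rw [e2]
      ring
  have HAB := point Ψ (-n, n) (fun m => m.1 + m.2 = 0 ∧ m.2 = n) (by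
    intro m
    constructor
    · rintro ⟨e, e'⟩
      exact Prod.ext (by change m.1 = -n; omega) e'
    · rintro rfl
      exact ⟨by change -n + n = 0; omega, rfl⟩)
  have HBC := point Ψ (n, n) (fun m => m.2 = n ∧ m.1 = n) (by
    intro m
    constructor
    · rintro ⟨e, e'⟩
      exact Prod.ext e' e
    · rintro rfl
      exact ⟨rfl, rfl⟩)
  have HAC := point Ψ (n, -n) (fun m => m.1 + m.2 = 0 ∧ m.1 = n) (by
    intro m
    constructor
    · rintro ⟨e, e'⟩
      exact Prod.ext e' (by change m.2 = -n; omega)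
    · rintro rfl
      exact ⟨by change n + -n = 0; omega, rfl⟩)
  have H1 : HasSum Ψ (T3 f g h n) := hΨ.hasSum
  have H := (H1.add (((HA.add HB).add HC).mul_left (3 : ℂ))).add
    (((HAB.add HBC).add HAC).mul_left (2 : ℂ))
  have e3 : (fun m : ℤ × ℤ => Ψ m *
      (((1 + on (m.1 + m.2 = 0) + on (m.2 = n) + on (m.1 = n)) ^ 2 : ℤ) : ℂ)) =
      fun m => Ψ m + 3 * (Ψ m * ((on (m.1 + m.2 = 0) : ℤ) : ℂ) + Ψ m * ((on (m.2 = n) : ℤ) : ℂ) +
        Ψ m * ((on (m.1 = n) : ℤ) : ℂ)) + 2 * (Ψ m * ((on (m.1 + m.2 = 0 ∧ m.2 = n) : ℤ) : ℂ) +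
        Ψ m * ((on (m.2 = n ∧ m.1 = n) : ℤ) : ℂ) +
        Ψ m * ((on (m.1 + m.2 = 0 ∧ m.1 = n) : ℤ) : ℂ)) := by
    funext m
    rw [om_sq]
    push_cast
    ring
  rw [e3, H.tsum_eq]
  unfold K1
  change T3 f g h n + 3 * (h n * pr f g + g n * pr f h + f n * pr g h) +
    2 * (f (-n) * g n * h (n - -n - n) + f n * g n * h (n - n - n) + f n * g (-n) * h (n - n - -n)) = _
  have e4 : n - -n - n = n := by ring
  have e5 : n - n - n = -n := by ring
  have e6 : n - n - -n = n := by ring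
  rw [e4, e5, e6]
  push_cast
  ring

theorem sum_pr {g h : ℤ → ℂ} (hg : Summable fun n => ‖g n‖) (hh : Summable fun n => ‖h n‖) :
    Summable fun q => g q * h (-q) := by
  refine Summable.of_norm_bounded (g := fun q => ‖g q‖ * ∑' n, ‖h n‖) (hg.mul_right _) fun q => ?_
  rw [norm_mul]
  refine mul_le_mul_of_nonneg_left ?_ (norm_nonneg _)
  exact hh.le_tsum (-q) fun _ _ => norm_nonneg _

theorem T3_diff (T3A : T3aStmt) (b : Bool) (f g h : ℤ → ℂ) (og : Oddf g)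
    (hf : Summable fun n => ‖f n‖) (hg : Summable fun n => ‖g n‖) (hh : Summable fun n => ‖h n‖)
    {n : ℤ} (hn : Odd n) :
    T3 (CL b f) (CL (!b) g) (CL (!b) h) (ph b n, ![n, sc b * n]) =
      f n * (4 * pr g h + 2 * (g n * h (-n) + g (-n) * h n)) := by
  rw [T3_reindex T3A b (!b) f g (CL (!b) h) hf hg (CL_summable (!b) h hh)]
  rw [tsum_congr fun m => inner_diff b f g h hn m]
  have e1 := tsum_odd (fun m : ℤ × ℤ => if m.1 = n then f n * g m.2 * h (-m.2) *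
        (((2 + on (m.2 = n) + on (m.2 = -n)) * 2 : ℤ) : ℂ) else 0) (by
      intro m hm
      by_cases h0 : m.1 = n
      · rw [if_pos h0] at hm
        refine ⟨h0 ▸ hn, ?_⟩
        by_contra h2
        exact right_ne_zero_of_mul (left_ne_zero_of_mul (left_ne_zero_of_mul hm)) (og _ h2)
      · rw [if_neg h0] at hm
        exact absurd rfl hm)
  refine e1.trans ?_
  have hi : Function.Injective (fun q : ℤ => ((n, q) : ℤ × ℤ)) := fun q q' e => congrArg Prod.snd e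
  rw [← hi.tsum_eq (f := fun m : ℤ × ℤ => if m.1 = n then f n * g m.2 * h (-m.2) *
        (((2 + on (m.2 = n) + on (m.2 = -n)) * 2 : ℤ) : ℂ) else 0) (by
      intro m hm
      by_cases h0 : m.1 = n
      · exact ⟨m.2, Prod.ext h0.symm rfl⟩
      · rw [Function.mem_support, if_neg h0] at hm
        exact absurd rfl hm)]
  have hs := (sum_pr hg hh).hasSum
  have hone : ∀ a : ℤ, HasSum (fun q => g q * h (-q) * ((on (q = a) : ℤ) : ℂ)) (g a * h (-a)) := by
    intro a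
    have h1 := hasSum_single (f := fun q => g q * h (-q) * ((on (q = a) : ℤ) : ℂ)) a (by
      intro q hq
      change g q * h (-q) * ((on (q = a) : ℤ) : ℂ) = 0
      unfold on
      rw [if_neg hq, Int.cast_zero, mul_zero])
    have h3 : g a * h (-a) * ((on (a = a) : ℤ) : ℂ) = g a * h (-a) := by
      unfold on
      rw [if_pos rfl, Int.cast_one, mul_one]
    rwa [h3] at h1
  have H := ((hs.mul_left (4 : ℂ)).add (((hone n).add (hone (-n))).mul_left (2 : ℂ))).mul_left (f n)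
  have e3 : (fun q : ℤ => (fun m : ℤ × ℤ => if m.1 = n then f n * g m.2 * h (-m.2) *
        (((2 + on (m.2 = n) + on (m.2 = -n)) * 2 : ℤ) : ℂ) else 0) (n, q)) =
      fun q => f n * (4 * (g q * h (-q)) + 2 * (g q * h (-q) * ((on (q = n) : ℤ) : ℂ) +
        g q * h (-q) * ((on (q = -n) : ℤ) : ℂ))) := by
    funext q
    change (if n = n then f n * g q * h (-q) *
        (((2 + on (q = n) + on (q = -n)) * 2 : ℤ) : ℂ) else 0) = _
    rw [if_pos rfl]
    push_cast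
    ring
  rw [e3, H.tsum_eq, neg_neg]
  rfl

theorem pr_comm (f g : ℤ → ℂ) : pr f g = pr g f := by
  unfold pr
  rw [← (Equiv.neg ℤ).tsum_eq]
  refine tsum_congr fun q => ?_
  change f (-q) * g (- -q) = g q * f (-q)
  rw [neg_neg, mul_comm]

section gen

variable {Γ : Type} [AddCommGroup Γ]

theorem T3_swap12 (F G H : Γ → ℂ) (x : Γ) : T3 F G H x = T3 G F H x := by
  unfold T3
  rw [← (Equiv.prodComm Γ Γ).tsum_eq]
  refine tsum_congr fun h => ?_
  change F h.2 * G h.1 * H (x - h.2 - h.1) = G h.1 * F h.2 * H (x - h.1 - h.2)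
  rw [sub_right_comm, mul_comm (F h.2)]

/-- `(a, b) ↦ (x - a - b, b)` -/
def rot (x : Γ) : Γ × Γ ≃ Γ × Γ where
  toFun h := (x - h.1 - h.2, h.2)
  invFun h := (x - h.1 - h.2, h.2)
  left_inv h := by
    refine Prod.ext ?_ rfl
    change x - (x - h.1 - h.2) - h.2 = h.1
    abel
  right_inv h := by
    refine Prod.ext ?_ rfl
    change x - (x - h.1 - h.2) - h.2 = h.1
    abel

theorem T3_swap13 (F G H : Γ → ℂ) (x : Γ) : T3 F G H x = T3 H G F x := by
  unfold T3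
  rw [← (rot x).tsum_eq]
  refine tsum_congr fun h => ?_
  change F (x - h.1 - h.2) * G h.2 * H (x - (x - h.1 - h.2) - h.2) =
    H h.1 * G h.2 * F (x - h.1 - h.2)
  have e : x - (x - h.1 - h.2) - h.2 = h.1 := by abel
  rw [e]
  ring

theorem T3_zero {F G H : Γ → ℂ} {x : Γ} (h : ∀ y z, F y * G z * H (x - y - z) = 0) :
    T3 F G H x = 0 := by
  unfold T3
  rw [tsum_congr fun y : Γ × Γ => h y.1 y.2, tsum_zero]

theorem T3_add8 (T3A : T3aStmt) {F F' G G' H H' : Γ → ℂ}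
    (hF : Summable fun g => ‖F g‖) (hF' : Summable fun g => ‖F' g‖)
    (hG : Summable fun g => ‖G g‖) (hG' : Summable fun g => ‖G' g‖)
    (hH : Summable fun g => ‖H g‖) (hH' : Summable fun g => ‖H' g‖) (x : Γ) :
    T3 (fun y => F y + F' y) (fun y => G y + G' y) (fun y => H y + H' y) x =
      T3 F G H x + T3 F G H' x + T3 F G' H x + T3 F G' H' x +
      T3 F' G H x + T3 F' G H' x + T3 F' G' H x + T3 F' G' H' x := by
  have H1 := (sumT T3A hF hG hH x).hasSum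
  have H2 := (sumT T3A hF hG hH' x).hasSum
  have H3 := (sumT T3A hF hG' hH x).hasSum
  have H4 := (sumT T3A hF hG' hH' x).hasSum
  have H5 := (sumT T3A hF' hG hH x).hasSum
  have H6 := (sumT T3A hF' hG hH' x).hasSum
  have H7 := (sumT T3A hF' hG' hH x).hasSum
  have H8 := (sumT T3A hF' hG' hH' x).hasSum
  have K := ((((((H1.add H2).add H3).add H4).add H5).add H6).add H7).add H8
  have e : (fun h : Γ × Γ => (F h.1 + F' h.1) * (G h.2 + G' h.2) *
      (H (x - h.1 - h.2) + H' (x - h.1 - h.2))) = fun h => F h.1 * G h.2 * H (x - h.1 - h.2) +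
      F h.1 * G h.2 * H' (x - h.1 - h.2) + F h.1 * G' h.2 * H (x - h.1 - h.2) +
      F h.1 * G' h.2 * H' (x - h.1 - h.2) + F' h.1 * G h.2 * H (x - h.1 - h.2) +
      F' h.1 * G h.2 * H' (x - h.1 - h.2) + F' h.1 * G' h.2 * H (x - h.1 - h.2) +
      F' h.1 * G' h.2 * H' (x - h.1 - h.2) := by
    funext h
    ring
  change ∑' h : Γ × Γ, (F h.1 + F' h.1) * (G h.2 + G' h.2) *
      (H (x - h.1 - h.2) + H' (x - h.1 - h.2)) = _
  rw [e]
  exact K.tsum_eq

end gen

theorem CL_ne {b : Bool} {f : ℤ → ℂ} {g : G2} (h : CL b f g ≠ 0) :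
    oth b g.1 = 0 ∧ Odd (act b g.1) := by
  by_contra h'
  unfold CL at h
  rw [if_neg h'] at h
  exact h rfl

theorem act_not (b : Bool) (p : ℤ × ℤ) : act (!b) p = oth b p := by
  cases b <;> rfl

theorem oth_not (b : Bool) (p : ℤ × ℤ) : oth (!b) p = act b p := by
  cases b <;> rfl

theorem act_sub (b : Bool) (p q : ℤ × ℤ) : act b (p - q) = act b p - act b q := by
  cases b <;> rfl

theorem oth_sub (b : Bool) (p q : ℤ × ℤ) : oth b (p - q) = oth b p - oth b q := by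
  cases b <;> rfl

theorem main (T3A : T3aStmt) (b : Bool) (f f' g g' h h' : ℤ → ℂ) (of : Oddf f) (of' : Oddf f')
    (og : Oddf g) (og' : Oddf g')
    (hf : Summable fun n => ‖f n‖) (hf' : Summable fun n => ‖f' n‖)
    (hg : Summable fun n => ‖g n‖) (hg' : Summable fun n => ‖g' n‖)
    (hh : Summable fun n => ‖h n‖) (hh' : Summable fun n => ‖h' n‖) {n : ℤ} (hn : Odd n) :
    T3 (fun y => CL b f y + CL (!b) f' y) (fun y => CL b g y + CL (!b) g' y)
      (fun y => CL b h y + CL (!b) h' y) (ph b n, ![n, sc b * n]) =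
    K1 3 2 f g h n + X1 f f' g g' h h' n := by
  have hx1 : oth b (ph b n) = 0 := oth_ph b n
  have hx2 : act b (ph b n) = n := act_ph b n
  have e0 : ¬ Odd (0 : ℤ) := by decide
  rw [T3_add8 T3A (CL_summable b f hf) (CL_summable (!b) f' hf') (CL_summable b g hg)
    (CL_summable (!b) g' hg') (CL_summable b h hh) (CL_summable (!b) h' hh')]
  rw [T3_same T3A b f g h of og hf hg hh hn]
  have z1 : T3 (CL b f) (CL b g) (CL (!b) h') (ph b n, ![n, sc b * n]) = 0 := by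
    refine T3_zero fun y z => ?_
    by_contra hne
    have h1 := CL_ne (right_ne_zero_of_mul hne)
    have h2 := CL_ne (left_ne_zero_of_mul (left_ne_zero_of_mul hne))
    have h3 := CL_ne (right_ne_zero_of_mul (left_ne_zero_of_mul hne))
    have h4 : act (!b) ((ph b n - y.1) - z.1) = 0 := by
      rw [act_not, oth_sub, oth_sub, hx1, h2.1, h3.1]
      rfl
    have h5 : Odd (act (!b) ((ph b n - y.1) - z.1)) := h1.2
    rw [h4] at h5
    exact e0 h5
  have z2 : T3 (CL b f) (CL (!b) g') (CL b h) (ph b n, ![n, sc b * n]) = 0 := by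
    refine T3_zero fun y z => ?_
    by_contra hne
    have h1 := CL_ne (right_ne_zero_of_mul hne)
    have h2 := CL_ne (left_ne_zero_of_mul (left_ne_zero_of_mul hne))
    have h3 := CL_ne (right_ne_zero_of_mul (left_ne_zero_of_mul hne))
    have h4 : oth b ((ph b n - y.1) - z.1) = 0 := h1.1
    rw [oth_sub, oth_sub, hx1, h2.1, ← act_not] at h4
    have h5 : act (!b) z.1 = 0 := by omega
    rw [h5] at h3
    exact e0 h3.2
  have z3 : T3 (CL (!b) f') (CL b g) (CL b h) (ph b n, ![n, sc b * n]) = 0 := by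
    refine T3_zero fun y z => ?_
    by_contra hne
    have h1 := CL_ne (right_ne_zero_of_mul hne)
    have h2 := CL_ne (left_ne_zero_of_mul (left_ne_zero_of_mul hne))
    have h3 := CL_ne (right_ne_zero_of_mul (left_ne_zero_of_mul hne))
    have h4 : oth b ((ph b n - y.1) - z.1) = 0 := h1.1
    rw [oth_sub, oth_sub, hx1, h3.1, ← act_not] at h4
    have h5 : act (!b) y.1 = 0 := by omega
    rw [h5] at h2
    exact e0 h2.2
  have z4 : T3 (CL (!b) f') (CL (!b) g') (CL (!b) h') (ph b n, ![n, sc b * n]) = 0 := by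
    refine T3_zero fun y z => ?_
    by_contra hne
    have h1 := CL_ne (right_ne_zero_of_mul hne)
    have h2 := CL_ne (left_ne_zero_of_mul (left_ne_zero_of_mul hne))
    have h3 := CL_ne (right_ne_zero_of_mul (left_ne_zero_of_mul hne))
    have h4 : oth (!b) ((ph b n - y.1) - z.1) = 0 := h1.1
    have h5 := h2.1
    have h6 := h3.1
    rw [oth_not] at h4 h5 h6
    rw [act_sub, act_sub, hx2, h5, h6] at h4
    exact odd_ne hn (by omega)
  have a1 := T3_diff T3A b f g' h' og' hf hg' hh' hn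
  have a2 : T3 (CL (!b) f') (CL b g) (CL (!b) h') (ph b n, ![n, sc b * n]) =
      g n * (4 * pr f' h' + 2 * (f' n * h' (-n) + f' (-n) * h' n)) := by
    rw [T3_swap12]
    exact T3_diff T3A b g f' h' of' hg hf' hh' hn
  have a3 : T3 (CL (!b) f') (CL (!b) g') (CL b h) (ph b n, ![n, sc b * n]) =
      h n * (4 * pr g' f' + 2 * (g' n * f' (-n) + g' (-n) * f' n)) := by
    rw [T3_swap13]
    exact T3_diff T3A b h g' f' og' hh hg' hf' hn
  rw [z1, z2, z3, z4, a1, a2, a3, pr_comm g' f']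
  unfold X1
  ring

theorem fmt (T3A : T3aStmt) : FmtStmt := by
  intro f1 f2 g1 g2 h1 h2 of1 of2 og1 og2 oh1 oh2 sf1 sf2 sg1 sg2 sh1 sh2 n hn
  constructor
  · have h := main T3A true f1 f2 g1 g2 h1 h2 of1 of2 og1 og2 sf1 sf2 sg1 sg2 sh1 sh2 hn
    rw [cl2_eq, cl2_eq, cl2_eq, ← h]
    have e : ((n, 0), ![n, n]) = ((ph true n, ![n, sc true * n]) : G2) := by
      have : sc true * n = n := one_mul n
      rw [this]
      rfl
    rw [e]
    rfl
  · have h := main T3A false f2 f1 g2 g1 h2 h1 of2 of1 og2 og1 sf2 sf1 sg2 sg1 sh2 sh1 hn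
    have ec : ∀ f f' : ℤ → ℂ, cl2 f f' = fun g => CL false f' g + CL true f g := by
      intro f f'
      rw [cl2_eq]
      funext g
      exact add_comm _ _
    rw [ec, ec, ec, ← h]
    rfl

end

end Pool.Agent.BOX.H98
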